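import Pool.Agent.K3h16.SF.Stm

/-!
# The idempotent attached to an element `f` with `f (1 - f)` nilpotent
-/

set_option autoImplicit false

universe v u

namespace Pool.Agent.K3h92.SF

open Polynomial in
theorem lift_aux (R : Type v) [Ring R] [Algebra ℚ R] (f : R) (k : ℕ)
    (h : (f * (1 - f)) ^ (k + 1) = 0) :
    ∃ P Q : Polynomial ℚ, Polynomial.aeval f P * f + Polynomial.aeval f Q * (1 - f) = 1 ∧
      (Polynomial.aeval f P * f) * (Polynomial.aeval f P * f) = Polynomial.aeval f P * f := by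
  have hc : IsCoprime (X ^ (k + 1) : ℚ[X]) ((1 - X) ^ (k + 1)) :=
    IsCoprime.pow ⟨1, 1, by ring⟩
  obtain ⟨A, B, hAB⟩ := hc
  have h1 : aeval f (1 - X : ℚ[X]) = 1 - f := by simp
  have e1 : aeval f (A * X ^ k) * f = aeval f (A * X ^ (k + 1)) := by
    rw [pow_succ, ← mul_assoc, map_mul (aeval f) (A * X ^ k) X, aeval_X]
  have e2 : aeval f (B * (1 - X) ^ k) * (1 - f) = aeval f (B * (1 - X) ^ (k + 1)) := by
    rw [pow_succ, ← mul_assoc, map_mul (aeval f) (B * (1 - X) ^ k) (1 - X), h1]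
  refine ⟨A * X ^ k, B * (1 - X) ^ k, ?_, ?_⟩
  · rw [e1, e2, ← map_add, hAB, map_one]
  · rw [e1, ← map_mul, ← sub_eq_zero, ← map_sub]
    have e3 : A * X ^ (k + 1) * (A * X ^ (k + 1)) - A * X ^ (k + 1) =
        -(A * B) * (X * (1 - X)) ^ (k + 1) := by
      rw [mul_pow]
      linear_combination (A * X ^ (k + 1)) * hAB
    rw [e3, map_mul, map_pow, map_mul (aeval f) X (1 - X), aeval_X, h1, h, mul_zero]

theorem t_LIFT : Pool.Agent.K3h16.SF.S_LIFT.{v} := fun R _ _ f k h => lift_aux R f k h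

end Pool.Agent.K3h92.SF
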